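import Pool.Agent.H64.EP.Targets

/-!
Row UB of ep_modules (MP_e01ba1_co).
-/

set_option autoImplicit false

open Finset
open scoped Classical
open Pool.Agent.H64.EP

namespace Pool.Agent.H54.EP.UB

theorem pf_UB : T_UB := by
  intro I D J _ _ _ _ S hS
  by_contra hcon
  push Not at hcon
  have hD : 0 < (Fintype.card D : ℝ) := by exact_mod_cast Fintype.card_pos
  have hcov : (univ : Finset (I → D)) ⊆
      (univ : Finset J).biUnion (fun p => Fintype.piFinset (S p)) := by
    intro f _
    obtain ⟨p, hp⟩ := hcon f
    rw [mem_biUnion]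
    exact ⟨p, mem_univ p, by rw [Fintype.mem_piFinset]; exact hp⟩
  have h1 : (Fintype.card D) ^ (Fintype.card I) ≤ ∑ p, ∏ t, (S p t).card := by
    calc (Fintype.card D) ^ (Fintype.card I)
        = (univ : Finset (I → D)).card := by
          rw [Finset.card_univ, Fintype.card_fun]
      _ ≤ ((univ : Finset J).biUnion (fun p => Fintype.piFinset (S p))).card :=
          Finset.card_le_card hcov
      _ ≤ ∑ p, (Fintype.piFinset (S p)).card := Finset.card_biUnion_le
      _ = ∑ p, ∏ t, (S p t).card := by
          apply Finset.sum_congr rfl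
          intro p _
          rw [Fintype.card_piFinset]
  have h2 : ((Fintype.card D : ℝ)) ^ (Fintype.card I) ≤ ∑ p, ∏ t, ((S p t).card : ℝ) := by
    exact_mod_cast h1
  have h3 : ∑ p, ∏ t, (((S p t).card : ℝ) / (Fintype.card D : ℝ)) =
      (∑ p, ∏ t, ((S p t).card : ℝ)) / ((Fintype.card D : ℝ)) ^ (Fintype.card I) := by
    rw [Finset.sum_div]
    apply Finset.sum_congr rfl
    intro p _
    rw [Finset.prod_div_distrib, Finset.prod_const, Finset.card_univ]
  rw [h3, div_lt_one (by positivity)] at hS
  exact absurd hS (not_lt.mpr h2)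

end Pool.Agent.H54.EP.UB
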